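import Pool.Agent.H70.EI.Targets

/-!
# AST: the step of an instance
-/

set_option autoImplicit false

namespace Pool.Agent.H70.EI

open Finset Pool.Agent.H6.NB Pool.Agent.H70.OQ Pool.Agent.H70.EH

theorem card_VV (q : ℕ) : (Fintype.card (VV q) : ℝ) = 2 * 2 ^ q := by
  rw [Fintype.card_prod, Fintype.card_bool, Fintype.card_fun, Fintype.card_bool, Fintype.card_fin]
  push_cast
  ring

theorem lam_tau (r q : ℕ) (m : ℝ) :
    (128 * ((4 ^ r ^ 2 : ℕ) : ℝ)) ^ (2 * (r + 1 + 1)) * (((4 ^ r ^ 2 : ℕ) : ℝ) ^ 2 * m +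
      (2 * 2 ^ q) ^ 2 * (((2 ^ 2 ^ r ^ 2 : ℕ) : ℝ) + 1) ^ (r + 1 + 1) / 2 ^ 4 ^ r ^ 2) =
    Lam r * m + Tau r q := by
  unfold Lam Tau
  rw [Nat.cast_pow, Nat.cast_pow, Nat.cast_ofNat, Nat.cast_ofNat, mul_add, mul_assoc]

open Classical in
theorem ast_core (h1 : Pool.Agent.H70.EH.T_RIN) (h2 : Pool.Agent.H70.EH.T_RL2)
    (h7 : T_NU2) (h8 : Pool.Agent.H6.NB.T_CLR) (r l q : ℕ) (hq : q = 10 * l + 100) (hr20 : 20 ≤ r)
    (hl1 : 16 * r ^ 3 ≤ l) (hl2 : l ≤ 16 * (r + 1) ^ 3) (b : Bool)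
    (B : ((Fin (2 * l) → Bool) → VV q → Bool) → Bool)
    (hB : ∀ P' u, Cl (VV q) (2 ^ 2 ^ r ^ 2) (r + 2) fun c => B (Function.update P' u c)) :
    (1 - 2 ^ (2 * l) * (Lam r / √(2 ^ q))) *
      ∑ c : (Fin (2 * l) → Bool) → VV q → Bool, (∏ u, mv false q (c u)) *
        (if B c = true then (1 : ℝ) else 0) -
      (2 ^ (2 * l) * (Tau r q + 1 / 2 ^ 2 ^ (q - 2)) +
        Real.exp (-(2 ^ (2 * l) * eps2 q ^ 2 / 64))) ≤
    ∑ c : (Fin (2 * l) → Bool) → VV q → Bool, (if Says q b c then ∏ u, mv b q (c u) else 0) *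
        (if B c = true then (1 : ℝ) else 0) := by
  have hnum := h7 r l hr20 hl1 hl2
  have hq10 : 100 ≤ q := by rw [hq]; omega
  have hLam0 : 0 ≤ Lam r := by unfold Lam; positivity
  have hTau0 : 0 ≤ Tau r q := by unfold Tau; positivity
  have hcard : (Fintype.card (Fin (2 * l) → Bool) : ℝ) = 2 ^ (2 * l) := by
    rw [Fintype.card_fun, Fintype.card_bool, Fintype.card_fin]; push_cast; ring
  let F : ((Fin (2 * l) → Bool) → VV q → Bool) → ℝ := fun c => if B c = true then 1 else 0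
  have hL12 : ∀ (P' : (Fin (2 * l) → Bool) → VV q → Bool) u ρ',
      L12 (rst ρ' fun c => F (Function.update P' u c)) ≤
        Lam r * mn (rst ρ' fun c => F (Function.update P' u c)) + Tau r q := by
    intro P' u ρ'
    have hcl' := h8 _ _ _ _ ρ' (hB P' u)
    have hrl := h2 (VV q) (2 ^ 2 ^ r ^ 2) (r + 1) (4 ^ r ^ 2) _
      (Nat.one_le_pow _ _ (by norm_num)) hcl'
    rw [card_VV, lam_tau] at hrl
    exact hrl
  have hLq : Lam r ≤ √(2 ^ q) := by rw [hq]; exact hnum.1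
  have hrin := h1 (Fin (2 * l) → Bool) q F (Lam r) (Tau r q) b hq10 hLam0 hLq hTau0
    (fun c => by
      simp only [F]
      split_ifs
      · exact ⟨zero_le_one, le_rfl⟩
      · exact ⟨le_rfl, zero_le_one⟩) hL12
  rw [hcard] at hrin
  exact hrin

theorem ast (h1 : Pool.Agent.H70.EH.T_RIN) (h2 : Pool.Agent.H70.EH.T_RL2) (h3 : T_ACL)
    (h4 : T_CNJ) (h5 : T_CNT) (h6 : T_HMX) (h7 : T_NU2) (h8 : Pool.Agent.H6.NB.T_CLR) : T_AST := by
  classical
  intro V W ρ hρ E O hO P p h J κ b hJ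
  have hr20 : 20 ≤ key V ρ (.inl p) := (h6.2.2 V ρ p).1
  have hJc : J.card ≤ 2 ^ 2 ^ key V ρ (.inl p) ^ 2 := by
    have e1 : J.card ≤ (E.filter fun i => key V ρ i ≤ key V ρ (.inl p)).card := by
      refine Finset.card_le_card_of_injOn (fun i => i.1) (fun i hi => ?_)
        (fun i _ j _ hij => Subtype.ext hij)
      exact Finset.mem_coe.2 (Finset.mem_filter.2 ⟨i.2, hJ i hi⟩)
    have e2 := h5 V W ρ hρ E (key V ρ (.inl p)) hr20
    have e3 : (2 : ℕ) ^ key V ρ (.inl p) ≤ 2 ^ 2 ^ key V ρ (.inl p) ^ 2 := by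
      refine Nat.pow_le_pow_right (by norm_num) ?_
      have e4 : key V ρ (.inl p) ≤ key V ρ (.inl p) ^ 2 := Nat.le_self_pow (by norm_num) _
      exact e4.trans (Nat.lt_two_pow_self).le
    omega
  let B : ((Fin (2 * (hm V p).length) → Bool) → VV (qs (hm V p)) → Bool) → Bool := fun c =>
    decide (∀ i ∈ J, decide (ansr V W ρ (O (Function.update P ⟨.inl p, h⟩ c)) i.1) = κ i)
  have hB : ∀ P' u, Cl (VV (qs (hm V p))) (2 ^ 2 ^ key V ρ (.inl p) ^ 2) (key V ρ (.inl p) + 2)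
      fun c => B (Function.update P' u c) := by
    intro P' u
    have hlit : Lit fun c : VV (qs (hm V p)) → Bool =>
        O (Function.update P ⟨.inl p, h⟩ (Function.update P' u c)) := by
      intro w
      have h9 := hO.blkU (Function.update P ⟨.inl p, h⟩ P') p h u w
      have h0 : (Function.update P ⟨.inl p, h⟩ P') ⟨.inl p, h⟩ = P' := Function.update_self _ _ _
      rw [h0] at h9
      have h10 : ∀ c : VV (qs (hm V p)) → Bool, Function.update (Function.update P ⟨.inl p, h⟩ P')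
          ⟨.inl p, h⟩ (Function.update P' u c) =
          Function.update P ⟨.inl p, h⟩ (Function.update P' u c) := fun c =>
        Function.update_idem _ _ _
      simp only [h10] at h9
      exact h9
    have := h4 (VV (qs (hm V p))) _ (2 ^ 2 ^ key V ρ (.inl p) ^ 2) (key V ρ (.inl p)) J
      (fun i c => decide (ansr V W ρ (O (Function.update P ⟨.inl p, h⟩
        (Function.update P' u c))) i.1)) κ
      (Nat.pow_le_pow_right (by norm_num) (Nat.one_le_two_pow) : 2 ^ 1 ≤ 2 ^ 2 ^ _) hJc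
      fun i hi => h3 V W ρ hρ _ _ _ i.1 hlit (hJ i hi)
    exact Eq.mpr (congrArg (Cl _ _ _) (funext fun c => decide_eq_decide.2 Iff.rfl)) this
  have hcore := ast_core h1 h2 h7 h8 (key V ρ (.inl p)) (hm V p).length (qs (hm V p)) rfl hr20
    (h6.2.2 V ρ p).2.1 (h6.2.2 V ρ p).2.2 b B hB
  have hif : ∀ c, (if B c = true then (1 : ℝ) else 0) = if ∀ i ∈ J, decide (ansr V W ρ
      (O (Function.update P ⟨.inl p, h⟩ c)) i.1) = κ i then 1 else 0 := by
    intro c
    by_cases hh : ∀ i ∈ J, decide (ansr V W ρ (O (Function.update P ⟨.inl p, h⟩ c)) i.1) = κ i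
    · rw [if_pos hh, if_pos (decide_eq_true hh)]
    · rw [if_neg hh, if_neg (fun e => hh (of_decide_eq_true e))]
  simp only [hif] at hcore
  exact hcore

end Pool.Agent.H70.EI
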