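import Pool.Agent.H70.EI.Defs

/-!
# Alternating exponential time in BQP and an infinite hierarchy: module targets
-/

set_option autoImplicit false

namespace Pool.Agent.H70.EI

open Finset Filter Pool.Agent.H6.NB Pool.Agent.H70.OQ Pool.Agent.H70.EH

/-! ## Part A: the fixed point -/

open Classical in
/-- FX2: the answers can be written into the oracle, and the events of the tables can be kept. -/
def T_FX2 : Prop := ∀ (I : Type) [Fintype I] [DecidableEq I] (T : I → Type) [∀ j, Fintype (T j)]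
  (ord : I → ℕ) (m : Bool → ∀ j, T j → ℝ) (G : Bool → ∀ j, T j → Prop)
  (f : (∀ j, T j) → I → Bool) (A : I → Prop) (ε τ : I → ℝ), Function.Injective ord →
  (∀ b j p, 0 ≤ m b j p) → (∀ b j, ∑ p, m b j p = 1) → (∀ j, 0 ≤ ε j) → (∀ j, 0 ≤ τ j) →
  (∀ j, A j → ∀ (κ : I → Bool) (P : ∀ j, T j),
    (1 - ε j) * ∑ p, m false j p *
      (if ∀ i, ord i ≤ ord j → f (Function.update P j p) i = κ i then 1 else 0) - τ j ≤
    ∑ p, (if G (κ j) j p then m (κ j) j p else 0) *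
      (if ∀ i, ord i ≤ ord j → f (Function.update P j p) i = κ i then 1 else 0)) →
  (∀ j, ¬ A j → ∀ P : ∀ j, T j,
    (∀ i, ord i < ord j → ∀ p, f (Function.update P j p) i = f P i) ∧
    1 / 4 ≤ ∑ p, (if G (f (Function.update P j p) j) j p then m (f (Function.update P j p) j) j p
      else 0)) →
  ∑ j, (ε j + 8 ^ (univ.filter fun i => ord i ≤ ord j).card * τ j) < 1 →
  ∃ P, ∀ j, G (f P j) j (P j)

/-! ## Part B: the tables -/

/-- TBN: a formula cannot find out whether there is a special row. -/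
def T_TBN : Prop := ∀ k c : ℕ, ∀ᶠ n in atTop, TabOK k c n

/-- RHO: the sizes of the tables. -/
def T_RHO : Prop := ∀ W : ℕ → Hm, ∃ ρ : ℕ → ℕ, Rho W ρ

/-- FML: the value of a machine is a formula. -/
def T_FML : Prop := ∀ (X : Type) (k : ℕ) (M : Machine k) (O : (X → Bool) → List Bool → Bool)
  (x : List Bool) (t : ℕ), x.length ^ M.c + M.c < t → Lit O →
  ∃ f : (X → Bool) → Bool, Fm (2 ^ t) t k f ∧ ∀ y, (f y = true ↔ x ∈ M.lang (O y))

open Classical in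
/-- BST: the machine `W a` errs with probability at least `1 / 4`. -/
def T_BST : Prop := ∀ (V : ℕ → ATM) (W : ℕ → Hm) (ρ : ℕ → ℕ), Rho W ρ → ∀ (E : Finset Ix)
  (O : (∀ i : {a // a ∈ E}, Ct V W ρ i.1) → List Bool → Bool), IsO V W ρ E O →
  ∀ (P : ∀ i : {a // a ∈ E}, Ct V W ρ i.1) (a : ℕ) (h : Sum.inr a ∈ E),
  (1 / 4 : ℝ) ≤ ∑ c : Ct V W ρ (.inr a), (if ansr V W ρ (O (Function.update P ⟨.inr a, h⟩ c)) (.inr a)
    then 1 / (Fintype.card (Ct V W ρ (.inr a)) : ℝ) else 0)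

/-- LOA: the strings on which the answers depend. -/
def T_LOA : Prop := ∀ (V : ℕ → ATM) (W : ℕ → Hm) (ρ : ℕ → ℕ) (i : Ix) (m : ℕ),
  (match i with
    | .inl p => (V p.1).time p.2.length
    | .inr a => (2 ^ ρ a) ^ (W a).2.c + (W a).2.c + 2 ^ ((W a).1 + 3) * 2 ^ ρ a + 1) ≤ m →
  ∀ O O' : List Bool → Bool, (∀ w, w.length ≤ m → O w = O' w) →
    (ansr V W ρ O i ↔ ansr V W ρ O' i)

/-- BLO: the answers of smaller indices do not depend on the table. -/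
def T_BLO : Prop := ∀ (V : ℕ → ATM) (W : ℕ → Hm) (ρ : ℕ → ℕ), Rho W ρ → ∀ (E : Finset Ix)
  (O : (∀ i : {a // a ∈ E}, Ct V W ρ i.1) → List Bool → Bool), IsO V W ρ E O →
  ∀ (P : ∀ i : {a // a ∈ E}, Ct V W ρ i.1) (a : ℕ) (h : Sum.inr a ∈ E) (i : Ix),
  key V ρ i ≤ ρ a → i ≠ .inr a → ∀ c : Ct V W ρ (.inr a),
    (ansr V W ρ (O (Function.update P ⟨.inr a, h⟩ c)) i ↔ ansr V W ρ (O P) i)

/-! ## Part C: circuits -/

open Classical in
/-- LCL: the value of an alternating computation, as a function of the variables of the oracle. -/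
def T_LCL : Prop := ∀ (X : Type) (S t k : ℕ) (g : List (List Bool) → Pool.Agent.H6.NB.DT)
  (O : (X → Bool) → List Bool → Bool), 2 ≤ S → 2 ^ (t + 1) ≤ S → Lit O →
  (∀ ws, ws.length = k → (∀ w ∈ ws, w.length ≤ t) → (g ws).depth ≤ t ∧ (g ws).Short t) →
  Cl X S (k + 3) fun y => decide (Alt (fun w => w.length ≤ t) true k fun ws =>
    (g ws).eval (O y) = true)

open Classical in
/-- PCL: the language `plang`, as a function of the variables of the oracle. -/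
def T_PCL : Prop := ∀ (X : Type) (S k : ℕ) (x : List Bool) (O : (X → Bool) → List Bool → Bool),
  2 ≤ S → 2 ^ (2 ^ k * x.length + 1) ≤ S → Lit O →
  Cl X S (k + 3) fun y => decide (x ∈ plang k (O y))

open Classical in
/-- CNJ: conjunctions. -/
def T_CNJ : Prop := ∀ (X ι : Type) (S d : ℕ) (J : Finset ι) (g : ι → (X → Bool) → Bool)
  (κ : ι → Bool), 2 ≤ S → J.card ≤ S → (∀ i ∈ J, Cl X S d (g i)) →
  Cl X S (d + 2) fun y => decide (∀ i ∈ J, g i y = κ i)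

open Classical in
/-- ACL: the answers as functions of the variables of the oracle. -/
def T_ACL : Prop := ∀ (V : ℕ → ATM) (W : ℕ → Hm) (ρ : ℕ → ℕ), Rho W ρ →
  ∀ (X : Type) (O : (X → Bool) → List Bool → Bool) (r : ℕ) (i : Ix), Lit O → key V ρ i ≤ r →
  Cl X (2 ^ 2 ^ r ^ 2) r fun y => decide (ansr V W ρ (O y) i)

/-! ## Part D: strings and numbers -/

/-- HMX: the instance strings. -/
def T_HMX : Prop := (∀ (V : ℕ → ATM) (p p' : ℕ × List Bool), hm V p = hm V p' → p = p') ∧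
  (∀ (V : ℕ → ATM) (p : ℕ × List Bool) (u v : List Bool) (b : Bool),
    ∃ w, pos (hm V p) u v b = true :: w) ∧
  ∀ (V : ℕ → ATM) (ρ : ℕ → ℕ) (p : ℕ × List Bool), 20 ≤ key V ρ (.inl p) ∧
    16 * key V ρ (.inl p) ^ 3 ≤ (hm V p).length ∧
    (hm V p).length ≤ 16 * (key V ρ (.inl p) + 1) ^ 3

/-- ISO: the oracle exists. -/
def T_ISO : Prop := ∀ (V : ℕ → ATM) (W : ℕ → Hm) (ρ : ℕ → ℕ), Rho W ρ → ∀ E : Finset Ix,
  ∃ O, IsO V W ρ E O

open Classical in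
/-- CNT: the number of indices of bounded size. -/
def T_CNT : Prop := ∀ (V : ℕ → ATM) (W : ℕ → Hm) (ρ : ℕ → ℕ), Rho W ρ → ∀ (E : Finset Ix) (r : ℕ),
  20 ≤ r → 3 * (E.filter fun i => key V ρ i ≤ r).card ≤ 2 ^ r

/-- GEO: the sum of the error bounds. -/
def T_GEO : Prop := ∀ (V : ℕ → ATM) (E : Finset Ix),
  ∑ i ∈ E, (match i with
    | .inl p => (1 / 4 : ℝ) ^ (hm V p).length
    | .inr _ => 0) ≤ 2

/-- NU2: estimates for the error terms. -/
def T_NU2 : Prop := ∀ r l : ℕ, 20 ≤ r → 16 * r ^ 3 ≤ l → l ≤ 16 * (r + 1) ^ 3 →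
  Lam r ≤ √(2 ^ (10 * l + 100)) ∧
  (2 : ℝ) ^ (2 * l) * (Lam r / √(2 ^ (10 * l + 100))) ≤ (1 / 4) ^ l / 8 ∧
  (2 : ℝ) ^ 2 ^ r * ((2 : ℝ) ^ (2 * l) * (Tau r (10 * l + 100) + 1 / 2 ^ 2 ^ (10 * l + 100 - 2)) +
    Real.exp (-((2 : ℝ) ^ (2 * l) * eps2 (10 * l + 100) ^ 2 / 64))) ≤ (1 / 4) ^ l / 8

/-! ## Part E: assembly -/

open Classical in
/-- AST: the step of an instance. -/
def T_AST : Prop := ∀ (V : ℕ → ATM) (W : ℕ → Hm) (ρ : ℕ → ℕ), Rho W ρ → ∀ (E : Finset Ix)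
  (O : (∀ i : {a // a ∈ E}, Ct V W ρ i.1) → List Bool → Bool), IsO V W ρ E O →
  ∀ (P : ∀ i : {a // a ∈ E}, Ct V W ρ i.1) (p : ℕ × List Bool) (h : Sum.inl p ∈ E)
    (J : Finset {a // a ∈ E}) (κ : {a // a ∈ E} → Bool) (b : Bool),
  (∀ i ∈ J, key V ρ i.1 ≤ key V ρ (.inl p)) →
  (1 - 2 ^ (2 * (hm V p).length) * (Lam (key V ρ (.inl p)) / √(2 ^ (qs (hm V p))))) *
    ∑ c : Ct V W ρ (.inl p), wgt V W ρ false (.inl p) c *
      (if ∀ i ∈ J, decide (ansr V W ρ (O (Function.update P ⟨.inl p, h⟩ c)) i.1) = κ i then 1 else 0) -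
    (2 ^ (2 * (hm V p).length) * (Tau (key V ρ (.inl p)) (qs (hm V p)) +
      1 / 2 ^ 2 ^ (qs (hm V p) - 2)) +
      Real.exp (-(2 ^ (2 * (hm V p).length) * eps2 (qs (hm V p)) ^ 2 / 64))) ≤
  ∑ c : Ct V W ρ (.inl p), (if okc V W ρ b (.inl p) c then wgt V W ρ b (.inl p) c else 0) *
      (if ∀ i ∈ J, decide (ansr V W ρ (O (Function.update P ⟨.inl p, h⟩ c)) i.1) = κ i then 1 else 0)

/-- EX2: finitely many indices. -/
def T_EX2 : Prop := ∀ (V : ℕ → ATM) (W : ℕ → Hm) (ρ : ℕ → ℕ), Rho W ρ → ∀ E : Finset Ix,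
  ∃ O, ∀ i ∈ E, good V W ρ O i

/-- DC2: the condition of an index depends on finitely many strings. -/
def T_DC2 : Prop := ∀ (V : ℕ → ATM) (W : ℕ → Hm) (ρ : ℕ → ℕ) (i : Ix), ∃ l,
  ∀ O O' : List Bool → Bool, (∀ w, w.length ≤ l → O w = O' w) →
    (good V W ρ O i ↔ good V W ρ O' i)

/-- FI2: the theorem. -/
def T_FI2 : Prop := ∀ (V : ℕ → ATM) (W : ℕ → (k : ℕ) × Machine (k + 1)), ∃ O : List Bool → Bool,
  (∀ i x, (x ∈ (V i).lang O → 2 / 3 ≤ yes O (home (V i) i x)) ∧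
    (x ∉ (V i).lang O → yes O (home (V i) i x) ≤ 1 / 3)) ∧
  ∀ a, (W a).2.lang O ≠ plang ((W a).1 + 1) O

end Pool.Agent.H70.EI
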