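import Pool.Agent.H70.EH.Stmt

/-!
# An oracle relative to which alternating exponential time is contained in BQP and the polynomial
hierarchy is infinite: definitions

The alternating oracle machines `ATM`, the size parameter `scale` and the quantum algorithm `yes` are those
of `Pool.Agent.H70.EH.Stmt`; the machines `Machine k` with `k` alternating quantifiers and the special
strings `Special k O u` are those of `Pool.Agent.H70.OQ.Stmt`.
-/

set_option autoImplicit false

namespace Pool.Agent.H70.EI

open Pool.Agent.H6.NB Pool.Agent.H70.OQ Pool.Agent.H70.EH

/-- The instance string for the input `x` of the machine number `i`. -/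
def home (M : ATM) (i : ℕ) (x : List Bool) : List Bool :=
  code x (List.replicate i true) (16 * scale M i x ^ 3)

/-- A language in `Σ_(k+1)` relative to `O`: `x` is a member iff there is a special string `u` of length
`|x|`, that is: `∃ u ∀ v₁ ∃ v₂ ∀ v₃ … Q v_k` the oracle contains (`k` odd) or does not contain (`k` even)
the string `0 u v₁ ⋯ v_k`; here `|u| = |x|` and `|v_j| = 2 ^ j |x|`. -/
def plang (k : ℕ) (O : List Bool → Bool) : Set (List Bool) :=
  {x | ∃ u : List Bool, u.length = x.length ∧ Special k O u}

end Pool.Agent.H70.EI
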