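import Pool.Agent.H70.EI.Targets

/-!
# EX2: finitely many indices
-/

set_option autoImplicit false

namespace Pool.Agent.H70.EI

open Finset Pool.Agent.H6.NB Pool.Agent.H70.OQ Pool.Agent.H70.EH

theorem nonempty_hid {X : Type} {Y : ℕ → Type} [Nonempty X] [∀ i, Nonempty (Y i)] :
    ∀ k, Nonempty (Hid X Y k)
  | 0 => ⟨()⟩
  | k + 1 => by
    obtain ⟨h⟩ := nonempty_hid (X := X) (Y := Y) k
    exact ⟨(h, fun _ => Classical.arbitrary _)⟩

/-- The relative error of an index. -/
noncomputable def ep (V : ℕ → ATM) (ρ : ℕ → ℕ) : Ix → ℝ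
  | .inl p => 2 ^ (2 * (hm V p).length) * (Lam (key V ρ (.inl p)) / √(2 ^ (qs (hm V p))))
  | .inr _ => 0

/-- The absolute error of an index. -/
noncomputable def ta (V : ℕ → ATM) (ρ : ℕ → ℕ) : Ix → ℝ
  | .inl p => 2 ^ (2 * (hm V p).length) * (Tau (key V ρ (.inl p)) (qs (hm V p)) +
      1 / 2 ^ 2 ^ (qs (hm V p) - 2)) +
      Real.exp (-(2 ^ (2 * (hm V p).length) * eps2 (qs (hm V p)) ^ 2 / 64))
  | .inr _ => 0

theorem Lam_nonneg (r : ℕ) : 0 ≤ Lam r := by unfold Lam; positivity

theorem Tau_nonneg (r q : ℕ) : 0 ≤ Tau r q := by unfold Tau; positivity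

theorem ep_nonneg (V : ℕ → ATM) (ρ : ℕ → ℕ) (i : Ix) : 0 ≤ ep V ρ i := by
  rcases i with p | a
  · exact mul_nonneg (by positivity) (div_nonneg (Lam_nonneg _) (Real.sqrt_nonneg _))
  · exact le_rfl

theorem ta_nonneg (V : ℕ → ATM) (ρ : ℕ → ℕ) (i : Ix) : 0 ≤ ta V ρ i := by
  rcases i with p | a
  · exact add_nonneg (mul_nonneg (by positivity) (add_nonneg (Tau_nonneg _ _) (by positivity)))
      (Real.exp_nonneg _)
  · exact le_rfl

theorem wgt_nonneg (V : ℕ → ATM) (W : ℕ → Hm) (ρ : ℕ → ℕ) (h : Pool.Agent.H70.EH.T_MUV) (b : Bool)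
    (i : Ix) (c : Ct V W ρ i) : 0 ≤ wgt V W ρ b i c := by
  rcases i with p | a
  · exact Finset.prod_nonneg fun u _ => (h b _).1 _
  · simp only [wgt]
    positivity

theorem wgt_sum (V : ℕ → ATM) (W : ℕ → Hm) (ρ : ℕ → ℕ) (h : Pool.Agent.H70.EH.T_MUV) (b : Bool)
    (i : Ix) : ∑ c : Ct V W ρ i, wgt V W ρ b i c = 1 := by
  rcases i with p | a
  · have h0 : ∑ c : (Fin (2 * (hm V p).length) → Bool) → VV (qs (hm V p)) → Bool,
        ∏ u, mv b (qs (hm V p)) (c u) =
          ∏ _u : Fin (2 * (hm V p).length) → Bool, ∑ p', mv b (qs (hm V p)) p' := by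
      rw [Finset.prod_univ_sum, Fintype.piFinset_univ]
    rw [Finset.prod_congr rfl fun u _ => (h b _).2.1, Finset.prod_const_one] at h0
    exact h0
  · have hne : Nonempty (Ct V W ρ (.inr a)) := by
      obtain ⟨H⟩ := nonempty_hid (X := Fin (2 ^ ρ a) → Bool) (Y := Ys (2 ^ ρ a)) ((W a).1 + 1)
      exact ⟨((true, H, fun _ => true) :
        Bool × Hid (Fin (2 ^ ρ a) → Bool) (Ys (2 ^ ρ a)) ((W a).1 + 1) × (Fin (2 ^ ρ a) → Bool))⟩
    have hc : (Fintype.card (Ct V W ρ (.inr a)) : ℝ) ≠ 0 := by
      exact_mod_cast Fintype.card_ne_zero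
    simp only [wgt]
    rw [Finset.sum_const, Finset.card_univ, nsmul_eq_mul]
    field_simp

theorem ex2 (h1 : T_FX2) (h2 : T_AST) (h3 : T_BST) (h4 : T_BLO) (h5 : T_ISO) (h6 : T_CNT)
    (h7 : T_GEO) (h8 : T_NU2) (h9 : T_HMX) (h10 : Pool.Agent.H70.EH.T_MUV) : T_EX2 := by
  classical
  intro V W ρ hρ E
  obtain ⟨O, hO⟩ := h5 V W ρ hρ E
  let M := E.card
  let ord : {a // a ∈ E} → ℕ := fun i => key V ρ i.1 * (M + 1) + (E.equivFin i).1
  have hidx : ∀ i : {a // a ∈ E}, (E.equivFin i).1 < M + 1 := fun i =>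
    Nat.lt_succ_of_lt (E.equivFin i).2
  have hord : Function.Injective ord := by
    intro i j hij
    have e1 : ord i % (M + 1) = (E.equivFin i).1 := by
      simp only [ord]
      rw [Nat.mul_comm, Nat.mul_add_mod, Nat.mod_eq_of_lt (hidx i)]
    have e2 : ord j % (M + 1) = (E.equivFin j).1 := by
      simp only [ord]
      rw [Nat.mul_comm, Nat.mul_add_mod, Nat.mod_eq_of_lt (hidx j)]
    rw [hij, e2] at e1
    exact (E.equivFin.injective (Fin.ext e1)).symm
  have hkey : ∀ i j, ord i ≤ ord j → key V ρ i.1 ≤ key V ρ j.1 := by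
    intro i j hij
    by_contra hlt
    have hlt' : key V ρ j.1 + 1 ≤ key V ρ i.1 := by omega
    have e1 := Nat.mul_le_mul_right (M + 1) hlt'
    have e2 := hidx j
    have e3 : ord j < (key V ρ j.1 + 1) * (M + 1) := by
      simp only [ord]
      rw [Nat.add_mul, Nat.one_mul]
      omega
    have e4 : key V ρ i.1 * (M + 1) ≤ ord i := Nat.le_add_right _ _
    omega
  obtain ⟨P, hP⟩ := h1 {a // a ∈ E} (fun i => Ct V W ρ i.1) ord
    (fun b i => wgt V W ρ b i.1) (fun b i => okc V W ρ b i.1)
    (fun P i => decide (ansr V W ρ (O P) i.1)) (fun i => ∃ p, i.1 = .inl p)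
    (fun i => ep V ρ i.1) (fun i => ta V ρ i.1) hord
    (fun b i c => wgt_nonneg V W ρ h10 b i.1 c) (fun b i => wgt_sum V W ρ h10 b i.1)
    (fun i => ep_nonneg V ρ i.1) (fun i => ta_nonneg V ρ i.1)
    (by
      rintro ⟨i, hi⟩ ⟨p, hp⟩ κ P
      obtain rfl : i = .inl p := hp
      have := h2 V W ρ hρ E O hO P p hi
        (univ.filter fun i => ord i ≤ ord ⟨.inl p, hi⟩) κ (κ ⟨.inl p, hi⟩)
        (fun i hi' => hkey i _ (Finset.mem_filter.1 hi').2)
      simp only [Finset.mem_filter, Finset.mem_univ, true_and] at this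
      exact this)
    (by
      rintro ⟨i, hi⟩ hA P
      rcases i with p | a
      · exact absurd ⟨p, rfl⟩ hA
      · refine ⟨fun i hlt c => ?_, ?_⟩
        · have hk : key V ρ i.1 ≤ ρ a := hkey i ⟨.inr a, hi⟩ hlt.le
          have hne : i.1 ≠ .inr a := by
            intro e
            have : i = ⟨.inr a, hi⟩ := Subtype.ext e
            rw [this] at hlt
            exact lt_irrefl _ hlt
          have := h4 V W ρ hρ E O hO P a hi i.1 hk hne c
          exact decide_eq_decide.2 this
        · have := h3 V W ρ hρ E O hO P a hi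
          refine this.trans (le_of_eq ?_)
          refine Finset.sum_congr rfl fun c _ => ?_
          by_cases hh : ansr V W ρ (O (Function.update P ⟨.inr a, hi⟩ c)) (.inr a)
          · rw [if_pos hh]
            have : okc V W ρ (decide (ansr V W ρ (O (Function.update P ⟨.inr a, hi⟩ c))
                (.inr a))) (.inr a) c := decide_eq_true hh
            exact (if_pos this).symm
          · rw [if_neg hh]
            have : ¬ okc V W ρ (decide (ansr V W ρ (O (Function.update P ⟨.inr a, hi⟩ c))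
                (.inr a))) (.inr a) c := fun e => hh (of_decide_eq_true e)
            exact (if_neg this).symm)
    (by
      have hterm : ∀ i : {a // a ∈ E}, ep V ρ i.1 +
          8 ^ (univ.filter fun i' => ord i' ≤ ord i).card * ta V ρ i.1 ≤
          (match i.1 with
            | .inl p => (1 / 4 : ℝ) ^ (hm V p).length
            | .inr _ => 0) / 4 := by
        rintro ⟨i, hi⟩
        rcases i with p | a
        · have hr := h9.2.2 V ρ p
          have hn := h8 (key V ρ (.inl p)) (hm V p).length hr.1 hr.2.1 hr.2.2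
          have hN : 3 * (univ.filter fun i' => ord i' ≤ ord ⟨.inl p, hi⟩).card ≤
              2 ^ key V ρ (.inl p) := by
            have e1 : (univ.filter fun i' => ord i' ≤ ord ⟨.inl p, hi⟩).card ≤
                (E.filter fun i => key V ρ i ≤ key V ρ (.inl p)).card := by
              refine Finset.card_le_card_of_injOn (fun i => i.1) (fun i hi' => ?_)
                (fun i _ j _ hij => Subtype.ext hij)
              exact Finset.mem_coe.2 (Finset.mem_filter.2 ⟨i.2,
                hkey i _ (Finset.mem_filter.1 hi').2⟩)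
            have e2 := h6 V W ρ hρ E (key V ρ (.inl p)) hr.1
            omega
          have h8' : (8 : ℝ) ^ (univ.filter fun i' => ord i' ≤ ord ⟨.inl p, hi⟩).card ≤
              2 ^ 2 ^ key V ρ (.inl p) := by
            have : (8 : ℝ) = 2 ^ 3 := by norm_num
            rw [this, ← pow_mul]
            exact pow_le_pow_right₀ (by norm_num) hN
          have hta := ta_nonneg V ρ (.inl p)
          have hc := mul_le_mul_of_nonneg_right h8' hta
          have hd : (2 : ℝ) ^ 2 ^ key V ρ (.inl p) * ta V ρ (.inl p) ≤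
              (1 / 4) ^ (hm V p).length / 8 := hn.2.2
          have he : ep V ρ (.inl p) ≤ (1 / 4) ^ (hm V p).length / 8 := hn.2.1
          change ep V ρ (.inl p) + 8 ^ (univ.filter fun i' => ord i' ≤ ord ⟨.inl p, hi⟩).card *
            ta V ρ (.inl p) ≤ (1 / 4 : ℝ) ^ (hm V p).length / 4
          linarith
        · change (0 : ℝ) + 8 ^ (univ.filter fun i' => ord i' ≤ ord ⟨.inr a, hi⟩).card * 0 ≤ 0 / 4
          simp
      have hgeo := h7 V E
      calc ∑ i : {a // a ∈ E}, (ep V ρ i.1 +
            8 ^ (univ.filter fun i' => ord i' ≤ ord i).card * ta V ρ i.1)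
          ≤ ∑ i : {a // a ∈ E}, (match i.1 with
            | .inl p => (1 / 4 : ℝ) ^ (hm V p).length
            | .inr _ => 0) / 4 := Finset.sum_le_sum fun i _ => hterm i
        _ = (∑ i : {a // a ∈ E}, (match i.1 with
            | .inl p => (1 / 4 : ℝ) ^ (hm V p).length
            | .inr _ => 0)) / 4 := by rw [Finset.sum_div]
        _ = (∑ i ∈ E, (match i with
            | .inl p => (1 / 4 : ℝ) ^ (hm V p).length
            | .inr _ => 0)) / 4 := by
              congr 1
              exact Finset.sum_coe_sort E (fun i : Ix => (match i with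
                | .inl p => (1 / 4 : ℝ) ^ (hm V p).length
                | .inr _ => 0))
        _ ≤ 2 / 4 := div_le_div_of_nonneg_right hgeo (by norm_num)
        _ < 1 := by norm_num)
  refine ⟨O P, fun i hi => ?_⟩
  have hPi := hP ⟨i, hi⟩
  rcases i with p | a
  · have hfun : (fun u : Fin (2 * (hm V p).length) → Bool => cpx (O P) (hm V p) (List.ofFn u)) =
        P ⟨.inl p, hi⟩ := by
      funext u
      exact hO.blk P p hi u
    change Says (qs (hm V p)) (decide (p.2 ∈ (V p.1).lang (O P)))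
      fun u : Fin (2 * (hm V p).length) → Bool => cpx (O P) (hm V p) (List.ofFn u)
    rw [hfun]
    exact hPi
  · exact of_decide_eq_true hPi

end Pool.Agent.H70.EI
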