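import Pool.Agent.H70.EI.Targets

/-!
# FX2: the answers can be written into the oracle, and the events of the tables can be kept
-/

set_option autoImplicit false

namespace Pool.Agent.H70.EI

open Finset

/-- Sum over a function and one of its coordinates. -/
theorem upd_sum {I : Type} [Fintype I] [DecidableEq I] {T : I → Type} [∀ j, Fintype (T j)] (j : I)
    (F : (∀ j, T j) → ℝ) :
    ∑ P, ∑ p, F (Function.update P j p) = Fintype.card (T j) * ∑ P, F P := by
  have h1 : ∑ P, ∑ p, F (Function.update P j p) =
      ∑ a : (∀ j, T j) × T j, F (Function.update a.1 j a.2) := by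
    rw [Fintype.sum_prod_type]
  have h2 : ∑ a : (∀ j, T j) × T j, F (Function.update a.1 j a.2) =
      ∑ a : (∀ j, T j) × T j, F a.1 := by
    refine Fintype.sum_equiv ⟨fun a => (Function.update a.1 j a.2, a.1 j),
      fun a => (Function.update a.1 j a.2, a.1 j), ?_, ?_⟩ _ _ ?_
    · intro a; ext <;> simp
    · intro a; ext <;> simp
    · intro a; rfl
  rw [h1, h2, Fintype.sum_prod_type]
  simp [Finset.mul_sum]

/-- Products of sums. -/
theorem prod_sum_pi {I : Type} [Fintype I] [DecidableEq I] {T : I → Type} [∀ j, Fintype (T j)]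
    (g : ∀ i, T i → ℝ) : ∑ P : (∀ j, T j), ∏ i, g i (P i) = ∏ i, ∑ p, g i p := by
  rw [Finset.prod_univ_sum, Fintype.piFinset_univ]

section

variable {I : Type} [Fintype I] [DecidableEq I] {T : I → Type} [∀ j, Fintype (T j)]

open Classical in
/-- The weight of a configuration when the coordinates of order below `k` are processed. -/
noncomputable def zw (ord : I → ℕ) (m : Bool → ∀ j, T j → ℝ) (G : Bool → ∀ j, T j → Prop)
    (f : (∀ j, T j) → I → Bool) (k : ℕ) (P : ∀ j, T j) (i : I) : ℝ :=
  if ord i < k then (if G (f P i) i (P i) then m (f P i) i (P i) else 0) else m false i (P i)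

omit [Fintype I] [DecidableEq I] in
theorem card_pos (m : Bool → ∀ j, T j → ℝ) (hm1 : ∀ b j, ∑ p, m b j p = 1) (j : I) :
    0 < (Fintype.card (T j) : ℝ) := by
  have : Nonempty (T j) := by
    by_contra hne
    rw [not_nonempty_iff] at hne
    have := hm1 false j
    rw [Finset.univ_eq_empty, Finset.sum_empty] at this
    exact zero_ne_one this
  exact_mod_cast Fintype.card_pos

open Classical in
/-- The step of an instance. -/
theorem stepA (ord : I → ℕ) (hord : Function.Injective ord) (m : Bool → ∀ j, T j → ℝ)
    (G : Bool → ∀ j, T j → Prop) (f : (∀ j, T j) → I → Bool)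
    (hm0 : ∀ b j p, 0 ≤ m b j p) (hm1 : ∀ b j, ∑ p, m b j p = 1) (j : I) (ε τ : ℝ) (hτ : 0 ≤ τ)
    (hyp : ∀ (κ : I → Bool) (P : ∀ j, T j),
      (1 - ε) * ∑ p, m false j p *
        (if ∀ i, ord i ≤ ord j → f (Function.update P j p) i = κ i then 1 else 0) - τ ≤
      ∑ p, (if G (κ j) j p then m (κ j) j p else 0) *
        (if ∀ i, ord i ≤ ord j → f (Function.update P j p) i = κ i then 1 else 0)) :
    (1 - ε) * (∑ P : (∀ j, T j), ∏ i, zw ord m G f (ord j) P i) -
      2 ^ (univ.filter fun i => ord i ≤ ord j).card * τ ≤
    ∑ P : (∀ j, T j), ∏ i, zw ord m G f (ord j + 1) P i := by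
  let N := {i : I // i ∈ (univ.filter fun i => ord i ≤ ord j)}
  let ext : (N → Bool) → I → Bool := fun κ i =>
    if h : i ∈ (univ.filter fun i => ord i ≤ ord j) then κ ⟨i, h⟩ else false
  let ind : (I → Bool) → (∀ j, T j) → ℝ := fun κ P =>
    if ∀ i, ord i ≤ ord j → f P i = κ i then 1 else 0
  have hone : ∀ P, ∑ κ : N → Bool, ind (ext κ) P = 1 := by
    intro P
    rw [Finset.sum_eq_single (fun a : N => f P a.1)]
    · simp only [ind]
      rw [if_pos]
      intro i hi
      simp only [ext]
      rw [dif_pos (by simpa using hi)]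
    · intro κ _ hκ
      simp only [ind]
      rw [if_neg]
      intro hall
      apply hκ
      funext a
      have h1 := hall a.1 (Finset.mem_filter.1 a.2).2
      simp only [ext] at h1
      rw [dif_pos a.2] at h1
      exact h1.symm
    · intro h; exact absurd (mem_univ _) h
  let v : (I → Bool) → ∀ i, T i → ℝ := fun κ i p =>
    if ord i < ord j then (if G (κ i) i p then m (κ i) i p else 0) else m false i p
  let R : (I → Bool) → (∀ j, T j) → ℝ := fun κ P => ∏ i ∈ univ.erase j, v κ i (P i)
  have hv0 : ∀ κ i p, 0 ≤ v κ i p := by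
    intro κ i p
    simp only [v]
    split_ifs
    · exact hm0 _ _ _
    · exact le_refl _
    · exact hm0 _ _ _
  have hv1 : ∀ κ i, ∑ p, v κ i p ≤ 1 := by
    intro κ i
    by_cases hi : ord i < ord j
    · calc ∑ p, v κ i p ≤ ∑ p, m (κ i) i p := by
            refine Finset.sum_le_sum fun p _ => ?_
            simp only [v]
            rw [if_pos hi]
            split_ifs
            · exact le_refl _
            · exact hm0 _ _ _
        _ = 1 := hm1 _ _
    · calc ∑ p, v κ i p ≤ ∑ p, m false i p := by
            refine Finset.sum_le_sum fun p _ => ?_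
            simp only [v]
            rw [if_neg hi]
        _ = 1 := hm1 _ _
  have hR0 : ∀ κ P, 0 ≤ R κ P := fun κ P => Finset.prod_nonneg fun i _ => hv0 _ _ _
  have hRu : ∀ κ P p, R κ (Function.update P j p) = R κ P := by
    intro κ P p
    refine Finset.prod_congr rfl fun i hi => ?_
    rw [Function.update_of_ne (Finset.ne_of_mem_erase hi)]
  have hRs : ∀ κ, ∑ P, R κ P ≤ Fintype.card (T j) := by
    intro κ
    have h1 : ∀ P : (∀ j, T j), R κ P = ∏ i, (if i = j then 1 else v κ i (P i)) := by
      intro P
      rw [← Finset.mul_prod_erase univ _ (mem_univ j), if_pos rfl, one_mul]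
      refine Finset.prod_congr rfl fun i hi => ?_
      rw [if_neg (Finset.ne_of_mem_erase hi)]
    rw [Finset.sum_congr rfl fun P _ => h1 P]
    rw [prod_sum_pi (fun i p => if i = j then 1 else v κ i p)]
    rw [← Finset.mul_prod_erase univ _ (mem_univ j)]
    have h2 : ∑ p : T j, (if j = j then (1 : ℝ) else v κ j p) = Fintype.card (T j) := by simp
    rw [h2]
    have h3 : ∏ i ∈ univ.erase j, ∑ p, (if i = j then 1 else v κ i p) ≤ 1 := by
      refine Finset.prod_le_one (fun i _ => Finset.sum_nonneg fun p _ => ?_) (fun i hi => ?_)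
      · split_ifs
        · exact zero_le_one
        · exact hv0 _ _ _
      · calc ∑ p, (if i = j then 1 else v κ i p) = ∑ p, v κ i p :=
              Finset.sum_congr rfl fun p _ => by rw [if_neg (Finset.ne_of_mem_erase hi)]
          _ ≤ 1 := hv1 _ _
    calc (Fintype.card (T j) : ℝ) * ∏ i ∈ univ.erase j, ∑ p, (if i = j then 1 else v κ i p)
        ≤ Fintype.card (T j) * 1 := by
          exact mul_le_mul_of_nonneg_left h3 (Nat.cast_nonneg _)
      _ = Fintype.card (T j) := mul_one _
  have hA : ∀ κ P, ind κ P * ∏ i, zw ord m G f (ord j) P i = R κ P * (m false j (P j) * ind κ P) := by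
    intro κ P
    by_cases h : ∀ i, ord i ≤ ord j → f P i = κ i
    · have hi : ind κ P = 1 := if_pos h
      rw [hi, one_mul, mul_one, ← Finset.mul_prod_erase univ _ (mem_univ j)]
      have h0 : zw ord m G f (ord j) P j = m false j (P j) := if_neg (lt_irrefl _)
      rw [h0, mul_comm]
      congr 1
      refine Finset.prod_congr rfl fun i _ => ?_
      simp only [v, zw]
      by_cases hij : ord i < ord j
      · rw [if_pos hij, if_pos hij, h i (le_of_lt hij)]
      · rw [if_neg hij, if_neg hij]
    · have hi : ind κ P = 0 := if_neg h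
      rw [hi]; ring
  have hB : ∀ κ P, ind κ P * ∏ i, zw ord m G f (ord j + 1) P i =
      R κ P * ((if G (κ j) j (P j) then m (κ j) j (P j) else 0) * ind κ P) := by
    intro κ P
    by_cases h : ∀ i, ord i ≤ ord j → f P i = κ i
    · have hi : ind κ P = 1 := if_pos h
      rw [hi, one_mul, mul_one, ← Finset.mul_prod_erase univ _ (mem_univ j)]
      have h0 : zw ord m G f (ord j + 1) P j =
          (if G (κ j) j (P j) then m (κ j) j (P j) else 0) := by
        unfold zw
        rw [if_pos (Nat.lt_succ_self _), h j le_rfl]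
      rw [h0, mul_comm]
      congr 1
      refine Finset.prod_congr rfl fun i hi' => ?_
      have hne : ord i ≠ ord j := fun e => Finset.ne_of_mem_erase hi' (hord e)
      simp only [v, zw]
      by_cases hij : ord i < ord j
      · rw [if_pos hij, if_pos (Nat.lt_succ_of_lt hij), h i (le_of_lt hij)]
      · rw [if_neg hij, if_neg (by omega)]
    · have hi : ind κ P = 0 := if_neg h
      rw [hi]; ring
  have hcard := card_pos m hm1 j
  set Z0 := ∑ P : (∀ j, T j), ∏ i, zw ord m G f (ord j) P i with hZ0
  set Z1 := ∑ P : (∀ j, T j), ∏ i, zw ord m G f (ord j + 1) P i with hZ1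
  have e0 : Fintype.card (T j) * Z0 = ∑ κ : N → Bool, ∑ P, R (ext κ) P *
      ∑ p, m false j p * ind (ext κ) (Function.update P j p) := by
    have h1 : Z0 = ∑ κ : N → Bool, ∑ P, R (ext κ) P * (m false j (P j) * ind (ext κ) P) := by
      rw [Finset.sum_comm, hZ0]
      refine Finset.sum_congr rfl fun P _ => ?_
      rw [← Finset.sum_congr rfl fun κ _ => hA (ext κ) P, ← Finset.sum_mul, hone, one_mul]
    rw [h1, Finset.mul_sum]
    refine Finset.sum_congr rfl fun κ _ => ?_
    rw [← upd_sum j (fun P => R (ext κ) P * (m false j (P j) * ind (ext κ) P))]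
    refine Finset.sum_congr rfl fun P _ => ?_
    rw [Finset.mul_sum]
    refine Finset.sum_congr rfl fun p _ => ?_
    rw [hRu, Function.update_self]
  have e1 : Fintype.card (T j) * Z1 = ∑ κ : N → Bool, ∑ P, R (ext κ) P *
      ∑ p, (if G (ext κ j) j p then m (ext κ j) j p else 0) *
        ind (ext κ) (Function.update P j p) := by
    have h1 : Z1 = ∑ κ : N → Bool, ∑ P, R (ext κ) P *
        ((if G (ext κ j) j (P j) then m (ext κ j) j (P j) else 0) * ind (ext κ) P) := by
      rw [Finset.sum_comm, hZ1]
      refine Finset.sum_congr rfl fun P _ => ?_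
      rw [← Finset.sum_congr rfl fun κ _ => hB (ext κ) P, ← Finset.sum_mul, hone, one_mul]
    rw [h1, Finset.mul_sum]
    refine Finset.sum_congr rfl fun κ _ => ?_
    rw [← upd_sum j (fun P => R (ext κ) P *
      ((if G (ext κ j) j (P j) then m (ext κ j) j (P j) else 0) * ind (ext κ) P))]
    refine Finset.sum_congr rfl fun P _ => ?_
    rw [Finset.mul_sum]
    refine Finset.sum_congr rfl fun p _ => ?_
    rw [hRu, Function.update_self]
  have hcN : (Fintype.card (N → Bool) : ℝ) = 2 ^ (univ.filter fun i => ord i ≤ ord j).card := by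
    rw [Fintype.card_fun, Fintype.card_bool, Fintype.card_coe]
    push_cast
    rfl
  have key : Fintype.card (T j) * ((1 - ε) * Z0 -
      2 ^ (univ.filter fun i => ord i ≤ ord j).card * τ) ≤ Fintype.card (T j) * Z1 := by
    have h2 : ∑ κ : N → Bool, ∑ P, R (ext κ) P * ((1 - ε) *
        (∑ p, m false j p * ind (ext κ) (Function.update P j p)) - τ) ≤
        Fintype.card (T j) * Z1 := by
      rw [e1]
      refine Finset.sum_le_sum fun κ _ => Finset.sum_le_sum fun P _ => ?_
      exact mul_le_mul_of_nonneg_left (hyp (ext κ) P) (hR0 _ _)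
    refine le_trans ?_ h2
    have h3 : ∑ κ : N → Bool, ∑ P, R (ext κ) P * ((1 - ε) *
        (∑ p, m false j p * ind (ext κ) (Function.update P j p)) - τ) =
        (1 - ε) * (Fintype.card (T j) * Z0) - τ * ∑ κ : N → Bool, ∑ P, R (ext κ) P := by
      rw [e0, Finset.mul_sum, Finset.mul_sum, ← Finset.sum_sub_distrib]
      refine Finset.sum_congr rfl fun κ _ => ?_
      rw [Finset.mul_sum, Finset.mul_sum, ← Finset.sum_sub_distrib]
      refine Finset.sum_congr rfl fun P _ => ?_
      ring
    have h4 : ∑ κ : N → Bool, ∑ P, R (ext κ) P ≤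
        2 ^ (univ.filter fun i => ord i ≤ ord j).card * Fintype.card (T j) := by
      calc ∑ κ : N → Bool, ∑ P, R (ext κ) P
          ≤ ∑ _κ : N → Bool, (Fintype.card (T j) : ℝ) :=
            Finset.sum_le_sum fun κ _ => hRs _
        _ = 2 ^ (univ.filter fun i => ord i ≤ ord j).card * Fintype.card (T j) := by
            rw [Finset.sum_const, nsmul_eq_mul, Finset.card_univ, hcN]
    have h5 := mul_le_mul_of_nonneg_left h4 hτ
    rw [h3]
    nlinarith [h5]
  exact le_of_mul_le_mul_left key hcard

open Classical in
/-- The step of a table. -/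
theorem stepB (ord : I → ℕ) (hord : Function.Injective ord) (m : Bool → ∀ j, T j → ℝ)
    (G : Bool → ∀ j, T j → Prop) (f : (∀ j, T j) → I → Bool)
    (hm0 : ∀ b j p, 0 ≤ m b j p) (hm1 : ∀ b j, ∑ p, m b j p = 1) (j : I)
    (hyp : ∀ P : ∀ j, T j,
      (∀ i, ord i < ord j → ∀ p, f (Function.update P j p) i = f P i) ∧
      1 / 4 ≤ ∑ p, (if G (f (Function.update P j p) j) j p then
        m (f (Function.update P j p) j) j p else 0)) :
    1 / 4 * (∑ P : (∀ j, T j), ∏ i, zw ord m G f (ord j) P i) ≤
    ∑ P : (∀ j, T j), ∏ i, zw ord m G f (ord j + 1) P i := by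
  have hcard := card_pos m hm1 j
  have hz0 : ∀ k P i, 0 ≤ zw ord m G f k P i := by
    intro k P i
    unfold zw
    split_ifs
    · exact hm0 _ _ _
    · exact le_refl _
    · exact hm0 _ _ _
  refine le_of_mul_le_mul_left ?_ hcard
  rw [← mul_assoc, mul_comm _ (1 / 4 : ℝ), mul_assoc,
    ← upd_sum j (fun P => ∏ i, zw ord m G f (ord j) P i),
    ← upd_sum j (fun P => ∏ i, zw ord m G f (ord j + 1) P i), Finset.mul_sum]
  refine Finset.sum_le_sum fun P _ => ?_
  have hR : ∀ p, ∏ i ∈ univ.erase j, zw ord m G f (ord j + 1) (Function.update P j p) i =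
      ∏ i ∈ univ.erase j, zw ord m G f (ord j) P i := by
    intro p
    refine Finset.prod_congr rfl fun i hi => ?_
    have hne := Finset.ne_of_mem_erase hi
    have hne' : ord i ≠ ord j := fun e => hne (hord e)
    unfold zw
    rw [Function.update_of_ne hne]
    by_cases hij : ord i < ord j
    · rw [if_pos hij, if_pos (Nat.lt_succ_of_lt hij), (hyp P).1 i hij p]
    · rw [if_neg hij, if_neg (by omega)]
  have hR' : ∀ p, ∏ i ∈ univ.erase j, zw ord m G f (ord j) (Function.update P j p) i =
      ∏ i ∈ univ.erase j, zw ord m G f (ord j) P i := by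
    intro p
    refine Finset.prod_congr rfl fun i hi => ?_
    have hne := Finset.ne_of_mem_erase hi
    unfold zw
    rw [Function.update_of_ne hne]
    by_cases hij : ord i < ord j
    · rw [if_pos hij, if_pos hij, (hyp P).1 i hij p]
    · rw [if_neg hij, if_neg hij]
  have e0 : ∑ p, ∏ i, zw ord m G f (ord j) (Function.update P j p) i =
      ∏ i ∈ univ.erase j, zw ord m G f (ord j) P i := by
    have : ∀ p, ∏ i, zw ord m G f (ord j) (Function.update P j p) i =
        m false j p * ∏ i ∈ univ.erase j, zw ord m G f (ord j) P i := by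
      intro p
      rw [← Finset.mul_prod_erase univ _ (mem_univ j), hR']
      congr 1
      unfold zw
      rw [if_neg (lt_irrefl _), Function.update_self]
    rw [Finset.sum_congr rfl fun p _ => this p, ← Finset.sum_mul, hm1, one_mul]
  have e1 : ∑ p, ∏ i, zw ord m G f (ord j + 1) (Function.update P j p) i =
      (∑ p, (if G (f (Function.update P j p) j) j p then
        m (f (Function.update P j p) j) j p else 0)) *
        ∏ i ∈ univ.erase j, zw ord m G f (ord j) P i := by
    rw [Finset.sum_mul]
    refine Finset.sum_congr rfl fun p _ => ?_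
    rw [← Finset.mul_prod_erase univ _ (mem_univ j), hR]
    congr 1
    unfold zw
    rw [if_pos (Nat.lt_succ_self _), Function.update_self]
  rw [e0, e1]
  exact mul_le_mul_of_nonneg_right (hyp P).2 (Finset.prod_nonneg fun i _ => hz0 _ _ _)

end

theorem fx2 : T_FX2 := by
  classical
  intro I _ _ T _ ord m G f A ε τ hord hm0 hm1 hε hτ hA hB hsum
  let N : I → ℕ := fun j => (univ.filter fun i => ord i ≤ ord j).card
  let Z : ℕ → ℝ := fun k => ∑ P : (∀ j, T j), ∏ i, zw ord m G f k P i
  let L : ℕ → ℝ := fun k => 1 - ∑ j ∈ univ.filter (fun j => ord j < k), (ε j + 8 ^ N j * τ j)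
  let B : ℕ → ℕ := fun k => (univ.filter fun j => ord j < k).card
  have hc0 : ∀ j, 0 ≤ ε j + 8 ^ N j * τ j := by
    intro j
    have h1 := hε j
    have h2 := hτ j
    positivity
  have hL0 : ∀ k, 0 < L k := by
    intro k
    have : ∑ j ∈ univ.filter (fun j => ord j < k), (ε j + 8 ^ N j * τ j) ≤
        ∑ j, (ε j + 8 ^ N j * τ j) :=
      Finset.sum_le_sum_of_subset_of_nonneg (Finset.filter_subset _ _) fun j _ _ => hc0 j
    simp only [L]
    linarith
  have hmain : ∀ k, (1 / 4) ^ B k * L k ≤ Z k := by
    intro k
    induction k with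
    | zero =>
      have h1 : ∀ P : (∀ j, T j), ∏ i, zw ord m G f 0 P i = ∏ i, m false i (P i) := by
        intro P
        refine Finset.prod_congr rfl fun i _ => ?_
        unfold zw
        rw [if_neg (Nat.not_lt_zero _)]
      have h2 : Z 0 = 1 := by
        simp only [Z]
        rw [Finset.sum_congr rfl fun P _ => h1 P, prod_sum_pi (fun i p => m false i p)]
        rw [Finset.prod_congr rfl fun i _ => hm1 false i, Finset.prod_const_one]
      rw [h2]
      simp [L, B]
    | succ k ih =>
      by_cases hk : ∃ j, ord j = k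
      · obtain ⟨j, hj⟩ := hk
        have hins : univ.filter (fun i => ord i < k + 1) =
            insert j (univ.filter (fun i => ord i < k)) := by
          ext i
          simp only [mem_filter, mem_univ, true_and, mem_insert]
          constructor
          · intro h
            by_cases h' : ord i = k
            · exact Or.inl (hord (h'.trans hj.symm))
            · exact Or.inr (by omega)
          · rintro (h | h)
            · rw [h, hj]; omega
            · omega
        have hnot : j ∉ univ.filter (fun i => ord i < k) := by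
          simp [hj]
        have hBk : B (k + 1) = B k + 1 := by
          simp only [B]
          rw [hins, Finset.card_insert_of_notMem hnot]
        have hLk : L (k + 1) = L k - (ε j + 8 ^ N j * τ j) := by
          simp only [L]
          rw [hins, Finset.sum_insert hnot]
          ring
        have hNj : N j = B k + 1 := by
          have : (univ.filter fun i => ord i ≤ ord j) = univ.filter (fun i => ord i < k + 1) := by
            ext i
            simp only [mem_filter, mem_univ, true_and, hj]
            omega
          simp only [N]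
          rw [this]
          exact hBk
        have hLpos := hL0 (k + 1)
        have hLk1 : L k ≤ 1 := by
          simp only [L]
          have : 0 ≤ ∑ j ∈ univ.filter (fun j => ord j < k), (ε j + 8 ^ N j * τ j) :=
            Finset.sum_nonneg fun j _ => hc0 j
          linarith
        by_cases hAj : A j
        · have h1 := stepA ord hord m G f hm0 hm1 j (ε j) (τ j) (hτ j) (hA j hAj)
          have h1' : (1 - ε j) * Z k - 2 ^ N j * τ j ≤ Z (k + 1) := by
            rw [hj] at h1
            have e : (univ.filter fun i => ord i ≤ k).card = N j := by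
              simp only [N, hj]
            rw [e] at h1
            exact h1
          have h2 : ε j ≤ 1 := by
            have h3 : 0 ≤ 8 ^ N j * τ j := mul_nonneg (by positivity) (hτ j)
            rw [hLk] at hLpos
            linarith
          have h3 : (1 - ε j) * ((1 / 4) ^ B k * L k) ≤ (1 - ε j) * Z k :=
            mul_le_mul_of_nonneg_left ih (by linarith)
          have h4 : (1 / 4 : ℝ) ^ B k * 8 ^ N j = 2 * 2 ^ N j * 2 ^ 1 * 1 := by
            rw [hNj]
            have : (8 : ℝ) = 4 * 2 := by norm_num
            rw [this, mul_pow, pow_succ 4 (B k), pow_succ (2 : ℝ) (B k)]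
            have h5 : (1 / 4 : ℝ) ^ B k * 4 ^ B k = 1 := by
              rw [← mul_pow]; norm_num
            calc (1 / 4 : ℝ) ^ B k * (4 ^ B k * 4 * (2 ^ B k * 2))
                = ((1 / 4 : ℝ) ^ B k * 4 ^ B k) * (4 * (2 ^ B k * 2)) := by ring
              _ = 2 * (2 ^ B k * 2) * 2 ^ 1 * 1 := by rw [h5]; ring
          have h6 : 2 ^ N j * τ j ≤ (1 / 4 : ℝ) ^ B k * (8 ^ N j * τ j) := by
            rw [← mul_assoc, h4]
            have := mul_nonneg (pow_nonneg (by norm_num : (0 : ℝ) ≤ 2) (N j)) (hτ j)
            nlinarith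
          have h7 : (1 / 4 : ℝ) ^ B k * L (k + 1) ≤ Z (k + 1) := by
            refine le_trans ?_ h1'
            refine le_trans ?_ (sub_le_sub_right h3 _)
            rw [hLk]
            have h8 : 0 ≤ (1 / 4 : ℝ) ^ B k * (ε j * (1 - L k)) :=
              mul_nonneg (by positivity) (mul_nonneg (hε j) (by linarith))
            nlinarith
          rw [hBk, pow_succ]
          have h9 : 0 ≤ (1 / 4 : ℝ) ^ B k * L (k + 1) := mul_nonneg (by positivity) hLpos.le
          calc (1 / 4 : ℝ) ^ B k * (1 / 4) * L (k + 1) = (1 / 4) * ((1 / 4 : ℝ) ^ B k * L (k + 1)) := by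
                ring
            _ ≤ (1 / 4 : ℝ) ^ B k * L (k + 1) := by linarith
            _ ≤ Z (k + 1) := h7
        · have h1 := stepB ord hord m G f hm0 hm1 j (hB j hAj)
          have h1' : 1 / 4 * Z k ≤ Z (k + 1) := by
            rw [hj] at h1
            exact h1
          refine le_trans ?_ h1'
          rw [hBk, pow_succ]
          have h2 : (1 / 4 : ℝ) ^ B k * L (k + 1) ≤ (1 / 4 : ℝ) ^ B k * L k := by
            refine mul_le_mul_of_nonneg_left ?_ (by positivity)
            rw [hLk]
            linarith [hc0 j]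
          nlinarith
      · have hset : univ.filter (fun i => ord i < k + 1) = univ.filter (fun i => ord i < k) := by
          ext i
          simp only [mem_filter, mem_univ, true_and]
          have : ord i ≠ k := fun h => hk ⟨i, h⟩
          omega
        have hZ : Z (k + 1) = Z k := by
          simp only [Z]
          refine Finset.sum_congr rfl fun P _ => Finset.prod_congr rfl fun i _ => ?_
          unfold zw
          have : ord i ≠ k := fun h => hk ⟨i, h⟩
          by_cases h : ord i < k
          · rw [if_pos h, if_pos (by omega)]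
          · rw [if_neg h, if_neg (by omega)]
        simp only [B, L]
        rw [hset, hZ]
        exact ih
  obtain ⟨K, hK⟩ : ∃ K, ∀ i, ord i < K :=
    ⟨univ.sup ord + 1, fun i => Nat.lt_succ_of_le (Finset.le_sup (mem_univ i))⟩
  have hZK : 0 < Z K := lt_of_lt_of_le (mul_pos (by positivity) (hL0 K)) (hmain K)
  by_contra hno
  have hno' : ∀ P : (∀ j, T j), ∃ j, ¬ G (f P j) j (P j) := by
    intro P
    by_contra h
    exact hno ⟨P, fun j => by
      by_contra h'
      exact h ⟨j, h'⟩⟩
  have : Z K = 0 := by
    simp only [Z]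
    refine Finset.sum_eq_zero fun P _ => ?_
    obtain ⟨j, hj⟩ := hno' P
    refine Finset.prod_eq_zero (mem_univ j) ?_
    unfold zw
    rw [if_pos (hK j), if_neg hj]
  linarith

end Pool.Agent.H70.EI
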