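import Pool.Agent.H17.EH.CHE
import Pool.Agent.H17.EH.CMP
import Pool.Agent.H17.EH.CSV
import Pool.Agent.H17.EI.BST
import Pool.Agent.H17.EI.CNT
import Pool.Agent.H17.EI.PCL
import Pool.Agent.H18.EH.CHA
import Pool.Agent.H18.EI.LCL
import Pool.Agent.H18.EI.LOA
import Pool.Agent.H19.NB.Small
import Pool.Agent.H24.NB.PHB
import Pool.Agent.H24.NB.PHU
import Pool.Agent.H3.NB.FIS
import Pool.Agent.H30.EH.DTC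
import Pool.Agent.H30.EH.MUV
import Pool.Agent.H30.EH.RDI
import Pool.Agent.H30.EH.WLM
import Pool.Agent.H30.OQ.ERR
import Pool.Agent.H36.NB.DIR
import Pool.Agent.H36.NB.FOU
import Pool.Agent.H36.NB.RST
import Pool.Agent.H37.NB.PTH
import Pool.Agent.H4.EH.PHV
import Pool.Agent.H4.EH.STR
import Pool.Agent.H4.EI.ACL
import Pool.Agent.H4.EI.FML
import Pool.Agent.H4.EI.ISO
import Pool.Agent.H4.EI.RHO
import Pool.Agent.H42.OQ.NST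
import Pool.Agent.H47.EH.RCP
import Pool.Agent.H48.EH.RIN
import Pool.Agent.H48.NB.WLK
import Pool.Agent.H54.EH.ALC
import Pool.Agent.H54.EI.CNJ
import Pool.Agent.H54.EI.NU2
import Pool.Agent.H54.NB.All
import Pool.Agent.H56.OQ.FMM
import Pool.Agent.H59.NB.HTR
import Pool.Agent.H62.OQ.LWS
import Pool.Agent.H64.EH.FOX
import Pool.Agent.H65.EI.FI2
import Pool.Agent.H65.EI.TBN
import Pool.Agent.H65.OQ.SWX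
import Pool.Agent.H70.EH.RDT
import Pool.Agent.H70.EH.RL2
import Pool.Agent.H70.EH.YEX
import Pool.Agent.H70.EI.AST
import Pool.Agent.H70.EI.EX2
import Pool.Agent.H70.EI.FX2
import Pool.Agent.H70.OQ.NDV
import Pool.Agent.H70.OQ.SPC
import Pool.Agent.H70.OQ.SWT
import Pool.Agent.H79.OQ.TB1
import Pool.Agent.H79.OQ.TBI
import Pool.Agent.H79.OQ.TBL
import Pool.Agent.H85.EI.DC2
import Pool.Agent.H85.OQ.CH2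
import Pool.Agent.H86.NB.CKT
import Pool.Agent.H93.OQ.RED
import Pool.Agent.H94.EI.GEO
import Pool.Agent.H94.EI.HMX
import Pool.Agent.H95.EI.BLO
import Pool.Agent.H97.NB.CLB

/-!
# Assembly of the modules
-/

set_option autoImplicit false

namespace Pool.Agent.H70.EI

theorem pf_FX2 : Pool.Agent.H70.EI.T_FX2 :=
  Pool.Agent.H70.EI.fx2

theorem pf_FOU_NB : Pool.Agent.H6.NB.T_FOU :=
  Pool.Agent.H36.NB.FOU.t_fou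

theorem pf_RST_NB : Pool.Agent.H6.NB.T_RST :=
  Pool.Agent.H36.NB.RST.t_rst

theorem pf_DIR_NB : Pool.Agent.H6.NB.T_DIR :=
  Pool.Agent.H36.NB.DIR.t_dir

theorem pf_STR_EH : Pool.Agent.H70.EH.T_STR :=
  Pool.Agent.H4.EH.str pf_FOU_NB pf_RST_NB pf_DIR_NB

theorem pf_WLM_EH : Pool.Agent.H70.EH.T_WLM :=
  Pool.Agent.H30.EH.wlm

theorem pf_WLK_NB : Pool.Agent.H6.NB.T_WLK :=
  Pool.Agent.H48.NB.WLK.t_wlk pf_DIR_NB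

theorem pf_MUV_EH : Pool.Agent.H70.EH.T_MUV :=
  Pool.Agent.H30.EH.muv pf_WLM_EH pf_WLK_NB

theorem pf_RDI_EH : Pool.Agent.H70.EH.T_RDI :=
  Pool.Agent.H30.EH.RDI.rdi pf_STR_EH pf_WLM_EH pf_MUV_EH pf_WLK_NB

theorem pf_RCP_EH : Pool.Agent.H70.EH.T_RCP :=
  Pool.Agent.H47.EH.rcp

theorem pf_CHA_EH : Pool.Agent.H70.EH.T_CHA :=
  Pool.Agent.H18.EH.cha

theorem pf_CSV_EH : Pool.Agent.H70.EH.T_CSV :=
  Pool.Agent.H17.EH.csv pf_WLM_EH pf_WLK_NB pf_DIR_NB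

theorem pf_PHV_EH : Pool.Agent.H70.EH.T_PHV :=
  Pool.Agent.H4.EH.phv pf_WLM_EH pf_MUV_EH pf_CSV_EH pf_WLK_NB pf_DIR_NB

theorem pf_PHB_NB : Pool.Agent.H6.NB.T_PHB :=
  Pool.Agent.H24.NB.PHB.t_phb

theorem pf_PHU_NB : Pool.Agent.H6.NB.T_PHU :=
  Pool.Agent.H24.NB.PHU.t_phu

theorem pf_CHE_EH : Pool.Agent.H70.EH.T_CHE :=
  Pool.Agent.H17.EH.che pf_CHA_EH pf_PHV_EH pf_MUV_EH pf_PHB_NB pf_PHU_NB

theorem pf_RIN_EH : Pool.Agent.H70.EH.T_RIN :=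
  Pool.Agent.H48.EH.rin pf_RDI_EH pf_RCP_EH pf_CHE_EH pf_MUV_EH

theorem pf_RDT_EH : Pool.Agent.H70.EH.T_RDT :=
  Pool.Agent.H70.EH.RDT.rdt

theorem pf_CKT_NB : Pool.Agent.H6.NB.T_CKT :=
  Pool.Agent.H86.NB.CKT.t_ckt

theorem pf_HTR_NB : Pool.Agent.H6.NB.T_HTR :=
  Pool.Agent.H59.NB.HTR.t_htr

theorem pf_RL2_EH : Pool.Agent.H70.EH.T_RL2 :=
  Pool.Agent.H70.EH.RL2.rl2 pf_RDT_EH pf_CKT_NB pf_HTR_NB

theorem pf_CLB_NB : Pool.Agent.H6.NB.T_CLB :=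
  Pool.Agent.H97.NB.CLB.t_clb

theorem pf_PTH_NB : Pool.Agent.H6.NB.T_PTH :=
  Pool.Agent.H37.NB.PTH.t_pth

theorem pf_DTC_EH : Pool.Agent.H70.EH.T_DTC :=
  Pool.Agent.H30.EH.dtc pf_CLB_NB pf_PTH_NB

theorem pf_FIS_NB : Pool.Agent.H6.NB.T_FIS :=
  Pool.Agent.H3.NB.FIS.t_fis

theorem pf_ALC_EH : Pool.Agent.H70.EH.T_ALC :=
  Pool.Agent.H54.EH.alc pf_CLB_NB pf_FIS_NB

theorem pf_LCL : Pool.Agent.H70.EI.T_LCL :=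
  Pool.Agent.H18.EI.lcl pf_DTC_EH pf_ALC_EH

theorem pf_PCL : Pool.Agent.H70.EI.T_PCL :=
  Pool.Agent.H17.EI.pcl pf_CLB_NB

theorem pf_ACL : Pool.Agent.H70.EI.T_ACL :=
  Pool.Agent.H4.EI.ACL.acl pf_LCL pf_PCL pf_CLB_NB

theorem pf_CNJ : Pool.Agent.H70.EI.T_CNJ :=
  Pool.Agent.H54.EI.cnj pf_CLB_NB

theorem pf_CNT : Pool.Agent.H70.EI.T_CNT :=
  Pool.Agent.H17.EI.cnt pf_FIS_NB

theorem pf_COD_NB : Pool.Agent.H6.NB.T_COD :=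
  Pool.Agent.H19.NB.t_cod

theorem pf_HMX : Pool.Agent.H70.EI.T_HMX :=
  Pool.Agent.H94.EI.hmx pf_COD_NB

theorem pf_NU2 : Pool.Agent.H70.EI.T_NU2 :=
  Pool.Agent.H54.EI.nu2

theorem pf_CLR_NB : Pool.Agent.H6.NB.T_CLR :=
  Pool.Agent.H19.NB.t_clr

theorem pf_AST : Pool.Agent.H70.EI.T_AST :=
  Pool.Agent.H70.EI.ast pf_RIN_EH pf_RL2_EH pf_ACL pf_CNJ pf_CNT pf_HMX pf_NU2 pf_CLR_NB

theorem pf_FML : Pool.Agent.H70.EI.T_FML :=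
  Pool.Agent.H4.EI.FML.fml pf_FIS_NB

theorem pf_NDV_OQ : Pool.Agent.H70.OQ.T_NDV :=
  Pool.Agent.H70.OQ.NDV.ndv

theorem pf_BST : Pool.Agent.H70.EI.T_BST :=
  Pool.Agent.H17.EI.bst pf_FML pf_NDV_OQ

theorem pf_EVC_NB : Pool.Agent.H6.NB.T_EVC :=
  Pool.Agent.H54.NB.t_evc

theorem pf_SPC_OQ : Pool.Agent.H70.OQ.T_SPC :=
  Pool.Agent.H70.OQ.SPC.spc

theorem pf_LOA : Pool.Agent.H70.EI.T_LOA :=
  Pool.Agent.H18.EI.loa pf_EVC_NB pf_SPC_OQ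

theorem pf_NST_OQ : Pool.Agent.H70.OQ.T_NST :=
  Pool.Agent.H42.OQ.NST.nst

theorem pf_BLO : Pool.Agent.H70.EI.T_BLO :=
  Pool.Agent.H95.EI.BLO.blo pf_LOA pf_NST_OQ

theorem pf_ISO : Pool.Agent.H70.EI.T_ISO :=
  Pool.Agent.H4.EI.ISO.isox pf_HMX pf_NST_OQ pf_COD_NB

theorem pf_GEO : Pool.Agent.H70.EI.T_GEO :=
  Pool.Agent.H94.EI.geo pf_HMX

theorem pf_EX2 : Pool.Agent.H70.EI.T_EX2 :=
  Pool.Agent.H70.EI.ex2 pf_FX2 pf_AST pf_BST pf_BLO pf_ISO pf_CNT pf_GEO pf_NU2 pf_HMX pf_MUV_EH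

theorem pf_DC2 : Pool.Agent.H70.EI.T_DC2 :=
  Pool.Agent.H85.EI.DC2.dc2 pf_LOA pf_COD_NB

theorem pf_SWX_OQ : Pool.Agent.H70.OQ.T_SWX :=
  Pool.Agent.H65.OQ.SWX.swx

theorem pf_SWT_OQ : Pool.Agent.H70.OQ.T_SWT :=
  Pool.Agent.H70.OQ.SWT.swt pf_SWX_OQ

theorem pf_RED_OQ : Pool.Agent.H70.OQ.T_RED :=
  Pool.Agent.H93.OQ.RED.red pf_SWT_OQ

theorem pf_LWS_OQ : Pool.Agent.H70.OQ.T_LWS :=
  Pool.Agent.H62.OQ.lws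

theorem pf_CL0_OQ : Pool.Agent.H70.OQ.T_CL0 :=
  Pool.Agent.H62.OQ.cl0 pf_LWS_OQ

theorem pf_DTP_OQ : Pool.Agent.H70.OQ.T_DTP :=
  Pool.Agent.H85.OQ.dtp

theorem pf_UWS_OQ : Pool.Agent.H70.OQ.T_UWS :=
  Pool.Agent.H62.OQ.uws

theorem pf_TB1_OQ : Pool.Agent.H70.OQ.T_TB1 :=
  Pool.Agent.H79.OQ.TB1.tb1 pf_RED_OQ pf_CL0_OQ pf_DTP_OQ pf_UWS_OQ pf_LWS_OQ

theorem pf_SYM_OQ : Pool.Agent.H70.OQ.T_SYM :=
  Pool.Agent.H62.OQ.sym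

theorem pf_LIV_OQ : Pool.Agent.H70.OQ.T_LIV :=
  Pool.Agent.H62.OQ.liv

theorem pf_TBI_OQ : Pool.Agent.H70.OQ.T_TBI :=
  Pool.Agent.H79.OQ.TBI.tbi pf_TB1_OQ pf_RED_OQ pf_SYM_OQ pf_LIV_OQ pf_UWS_OQ pf_LWS_OQ

theorem pf_FMM_OQ : Pool.Agent.H70.OQ.T_FMM :=
  Pool.Agent.H56.OQ.FMM.fmm

theorem pf_TBL_OQ : Pool.Agent.H70.OQ.T_TBL :=
  Pool.Agent.H79.OQ.TBL.tbl pf_TBI_OQ pf_FMM_OQ

theorem pf_ERR_OQ : Pool.Agent.H70.OQ.T_ERR :=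
  Pool.Agent.H30.OQ.ERR.err

theorem pf_TBN : Pool.Agent.H70.EI.T_TBN :=
  Pool.Agent.H65.EI.tbn pf_TBL_OQ pf_ERR_OQ

theorem pf_RHO : Pool.Agent.H70.EI.T_RHO :=
  Pool.Agent.H4.EI.RHO.rho pf_TBN

theorem pf_CMP_EH : Pool.Agent.H70.EH.T_CMP :=
  Pool.Agent.H17.EH.cmp

theorem pf_FOX_EH : Pool.Agent.H70.EH.T_FOX :=
  Pool.Agent.H64.EH.fox

theorem pf_YEX_EH : Pool.Agent.H70.EH.T_YEX :=
  Pool.Agent.H70.EH.yex pf_FOX_EH pf_PHB_NB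

theorem pf_FI2 : Pool.Agent.H70.EI.T_FI2 :=
  Pool.Agent.H65.EI.fi2 pf_EX2 pf_DC2 pf_RHO pf_CMP_EH pf_YEX_EH

end Pool.Agent.H70.EI
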