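import Pool.Agent.H70.EH.Targets
import Pool.Agent.H70.OQ.Targets
import Pool.Agent.H70.EI.Stmt

/-!
# Alternating exponential time in BQP and an infinite hierarchy: definitions for the proof
-/

set_option autoImplicit false

namespace Pool.Agent.H70.EI

open Finset Pool.Agent.H6.NB Pool.Agent.H70.OQ Pool.Agent.H70.EH

/-- The indices: `inl (i, x)` is the input `x` of the machine number `i`, `inr a` is the table number
`a`. -/
abbrev Ix : Type := (ℕ × List Bool) ⊕ ℕ

/-- The machines with `k + 1` quantifiers, for all `k`. -/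
abbrev Hm : Type := (k : ℕ) × Machine (k + 1)

/-- The table of a coordinate `(b, H, x)`: without special rows, or with the only special row `x`. -/
def tb {n k : ℕ} (c : Bool × Hid (Fin n → Bool) (Ys n) k × (Fin n → Bool)) : Nn n k → Bool :=
  if c.1 then tabU k c.2.1 c.2.2 else tabT k c.2.1

open Classical in
/-- A formula cannot find out whether there is a special row. -/
def TabOK (k c n : ℕ) : Prop := ∀ f : (Nn n (k + 1) → Bool) → Bool,
  Fm (2 ^ (n ^ c + c + 1)) (n ^ c + c + 1) (k + 1) f →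
  4 * (univ.filter fun p : Hid (Fin n → Bool) (Ys n) (k + 1) × (Fin n → Bool) =>
    f (tabU (k + 1) p.1 p.2) ≠ f (tabT (k + 1) p.1)).card ≤
    Fintype.card (Hid (Fin n → Bool) (Ys n) (k + 1) × (Fin n → Bool))

/-- The table number `a` consists of strings `0 u v₁ ⋯` with `|u| = 2 ^ ρ a`. -/
structure Rho (W : ℕ → Hm) (ρ : ℕ → ℕ) : Prop where
  mono : StrictMono ρ
  small : ∀ a, (W a).2.c + (W a).1 + 30 ≤ ρ a
  sep : ∀ a b, a < b → (2 ^ ρ a) ^ (W a).2.c + (W a).2.c + 2 ^ ((W a).1 + 3) * 2 ^ ρ a + 1 < 2 ^ ρ b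
  ok : ∀ a, TabOK (W a).1 (W a).2.c (2 ^ ρ a)

section

variable (V : ℕ → ATM) (W : ℕ → Hm) (ρ : ℕ → ℕ)

/-- The instance string of `p = (i, x)`. -/
def hm (p : ℕ × List Bool) : List Bool := home (V p.1) p.1 p.2

/-- The values of a coordinate: the copies of an instance, or a table. -/
def Ct : Ix → Type
  | .inl p => (Fin (2 * (hm V p).length) → Bool) → VV (qs (hm V p)) → Bool
  | .inr a => Bool × Hid (Fin (2 ^ ρ a) → Bool) (Ys (2 ^ ρ a)) ((W a).1 + 1) × (Fin (2 ^ ρ a) → Bool)

/-- The coordinates have finitely many values. -/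
@[instance_reducible] def fCt : (i : Ix) → Fintype (Ct V W ρ i)
  | .inl p => inferInstanceAs (Fintype ((Fin (2 * (hm V p).length) → Bool) → VV (qs (hm V p)) → Bool))
  | .inr a => inferInstanceAs (Fintype (Bool × Hid (Fin (2 ^ ρ a) → Bool) (Ys (2 ^ ρ a)) ((W a).1 + 1) ×
      (Fin (2 ^ ρ a) → Bool)))

instance (i : Ix) : Fintype (Ct V W ρ i) := fCt V W ρ i

/-- The size parameter of an index. -/
def key : Ix → ℕ
  | .inl p => scale (V p.1) p.1 p.2
  | .inr a => ρ a

/-- The question of an index: is `x` a member of the language of the machine; does the machine `W a` err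
on the input `0 ⋯ 0`. -/
def ansr (O : List Bool → Bool) : Ix → Prop
  | .inl p => p.2 ∈ (V p.1).lang O
  | .inr a => ¬ (List.replicate (2 ^ ρ a) false ∈ (W a).2.lang O ↔
      List.replicate (2 ^ ρ a) false ∈ plang ((W a).1 + 1) O)

open Classical in
/-- The oracle is good for the index: the copies say the answer; the machine `W a` errs. -/
def good (O : List Bool → Bool) : Ix → Prop
  | .inl p => Says (qs (hm V p)) (decide (p.2 ∈ (V p.1).lang O))
      fun u : Fin (2 * (hm V p).length) → Bool => cpx O (hm V p) (List.ofFn u)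
  | .inr a => ansr V W ρ O (.inr a)

/-- The distributions of the coordinates. -/
noncomputable def wgt (b : Bool) : (i : Ix) → Ct V W ρ i → ℝ
  | .inl p => fun P => ∏ u, mv b (qs (hm V p)) (P u)
  | .inr a => fun _ => 1 / Fintype.card (Ct V W ρ (.inr a))

/-- The coordinate says the answer `b`. -/
def okc (b : Bool) : (i : Ix) → Ct V W ρ i → Prop
  | .inl p => fun P => Says (qs (hm V p)) b P
  | .inr _ => fun _ => b = true

/-- `O P` is the oracle built from the coordinates `P i`, `i ∈ E`. -/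
structure IsO (E : Finset Ix) (O : (∀ i : {a // a ∈ E}, Ct V W ρ i.1) → List Bool → Bool) : Prop where
  blk : ∀ (P : ∀ i : {a // a ∈ E}, Ct V W ρ i.1) (p : ℕ × List Bool) (h : Sum.inl p ∈ E)
    (u : Fin (2 * (hm V p).length) → Bool), cpx (O P) (hm V p) (List.ofFn u) = P ⟨.inl p, h⟩ u
  tab : ∀ (P : ∀ i : {a // a ∈ E}, Ct V W ρ i.1) (a : ℕ) (h : Sum.inr a ∈ E)
    (x : Nn (2 ^ ρ a) ((W a).1 + 1)), O P (false :: nstr (2 ^ ρ a) ((W a).1 + 1) x) =
      tb (P ⟨.inr a, h⟩) x
  blkU : ∀ (P : ∀ i : {a // a ∈ E}, Ct V W ρ i.1) (p : ℕ × List Bool) (h : Sum.inl p ∈ E)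
    (u : Fin (2 * (hm V p).length) → Bool) (w : List Bool),
    (∃ b, ∀ c : VV (qs (hm V p)) → Bool, O (Function.update P ⟨.inl p, h⟩
      (Function.update (β := fun _ => VV (qs (hm V p)) → Bool) (P ⟨.inl p, h⟩) u c)) w = b) ∨
    ∃ v, ∀ c : VV (qs (hm V p)) → Bool, O (Function.update P ⟨.inl p, h⟩
      (Function.update (β := fun _ => VV (qs (hm V p)) → Bool) (P ⟨.inl p, h⟩) u c)) w = c v
  tabU : ∀ (P : ∀ i : {a // a ∈ E}, Ct V W ρ i.1) (a : ℕ) (h : Sum.inr a ∈ E) (w : List Bool),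
    (∀ c, O (Function.update P ⟨.inr a, h⟩ c) w = O P w) ∨
    ∃ x : Nn (2 ^ ρ a) ((W a).1 + 1), w = false :: nstr (2 ^ ρ a) ((W a).1 + 1) x

end

/-- The oracle family `O y` consists of constants and variables. -/
def Lit {X : Type} (O : (X → Bool) → List Bool → Bool) : Prop :=
  ∀ w, (∃ b, ∀ y, O y w = b) ∨ ∃ v, ∀ y, O y w = y v

/-- The bound for the second level, relative to the mean, for instances of scale `r`. -/
noncomputable def Lam (r : ℕ) : ℝ := (128 * 4 ^ r ^ 2) ^ (2 * (r + 2)) * (4 ^ r ^ 2) ^ 2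

/-- The absolute error of the second level for instances of scale `r`, for `q` qubits. -/
noncomputable def Tau (r q : ℕ) : ℝ :=
  (128 * 4 ^ r ^ 2) ^ (2 * (r + 2)) * ((2 * 2 ^ q) ^ 2 * (2 ^ 2 ^ r ^ 2 + 1) ^ (r + 2) / 2 ^ 4 ^ r ^ 2)

end Pool.Agent.H70.EI
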